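import Mathlib
import Pool.Agent.L7h19.RH.Ht3

/-!
# Project AM (helper72, with helper19; MP_157626_nt): all moments of `2 ^ rank / max (1, Tamagawa ratio)`
over all elliptic curves over `ℚ` with full 2-torsion, by height: statements

For `y² = x (x - A) (x - B)` let `e` be the excess of the number of the primes of split multiplicative
reduction which divide one of `A`, `B`, `A - B` over the number of all the primes which divide the two
others (`0` if there is no excess).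
-/

set_option autoImplicit false

namespace Pool.Agent.L7h72.AM2

open Finset Pool.Agent.W262.RK Pool.Agent.W307.RT Pool.Agent.L7h19.RH

variable {J : Type} [Fintype J] [DecidableEq J]

/-- the excess: `a c` against `b c'`, `c' ≠ c` -/
def exc (a b : Fin 3 → ℕ) : ℕ :=
  (a 0 - (b 1 + b 2)) + (a 1 - (b 0 + b 2)) + (a 2 - (b 0 + b 1))

/-- the number of the primes of the class `c` -/
def nu (cls : J → Fin 3) (s : J → ℕ) (c : Fin 3) : ℕ :=
  ∑ j ∈ univ.filter (fun j => cls j = c), (s j).primeFactors.card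

/-- the number of the primes of the class `c` outside `E` (the split primes) -/
def nus (cls : J → Fin 3) (s : J → ℕ) (E : Finset ℕ) (c : Fin 3) : ℕ :=
  ∑ j ∈ univ.filter (fun j => cls j = c), ((s j).primeFactors.filter (fun p => p ∉ E)).card

/-- the excess of the tuple -/
def ibE (cls : J → Fin 3) (s : J → ℕ) (E : Finset ℕ) : ℕ := exc (nus cls s E) (nu cls s)

/-- the damped moment, averaged over the signs -/
noncomputable def GA (k : ℕ) (cls : J → Fin 3) (s : J → ℕ) : ℝ :=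
  (1 / 2) ^ (Q0 s).card * ∑ E ∈ (Q0 s).powerset,
    ((NL (∏ j, s j) (LSs cls s E) : ℝ) / 2 ^ ibE cls s E) ^ k

/-- **S_MAJ** (from the parts of project FT, helper19) -/
def S_MAJ : Prop := ∀ (J : Type) [Fintype J] [DecidableEq J] (cls : J → Fin 3) (k c : ℕ),
  ∃ z0 : ℕ, ∀ z, z0 ≤ z → ∃ C : ℝ, ∀ y, z < y →
    ∑ s ∈ Tup J z y, GA k cls s * ∏ j, gw 1 c (s j) ≤ C * (Real.log y) ^ (Fintype.card J)

/-- **S_GRO**: growth. As `Pool.Agent.L7h19.RH.subs` (`Pool/Agent/L7h19/RH/Sub.lean`, whose proof gives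
for each `E` the bound `NL (s e) E ≤ 4 ^ (∑ ω(e j)) NL s (E ∩ P)`, `P = Q0 s`), and
`ibE cls s (E ∩ P) ≤ ibE cls (s e) E + ∑ ω(e j)` (`nus s (E ∩ P) ≤ nus (s e) E`,
`nu (s e) ≤ nu s + ∑ ω(e j)` over the class; at most one of the three differences is positive). -/
def S_GRO : Prop := ∀ (J : Type) [Fintype J] [DecidableEq J] (cls : J → Fin 3) (k z y : ℕ)
  (s e : J → ℕ), (fun j => s j * e j) ∈ Tup J z y →
  GA k cls (fun j => s j * e j) ≤ (8 ^ k) ^ (∑ j, (e j).primeFactors.card) * GA k cls s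

/-- the number of the prime divisors -/
def om (n : ℤ) : ℕ := n.natAbs.primeFactors.card

/-- the number of the primes `p ∣ a` such that `b` is a nonzero square modulo `p` (for `p = 2`: odd) -/
def spl (a b : ℤ) : ℕ := (a.natAbs.primeFactors.filter (fun p => jacobiSym b p = 1)).card

/-- the numbers of the split primes of `y² = x (x - D F₀) (x - D F₁)`, `F₂ = F₀ - F₁`: at `p ∣ F₀` the
node is `0` and the squares of the slopes are `-D F₁`, at `p ∣ F₁` the node is `0` and they are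
`-D F₀`, at `p ∣ F₂` the node is `D F₀` and they are `D F₀` -/
def sp3 (D : ℤ) (F : Fin 3 → ℤ) (c : Fin 3) : ℕ :=
  if c = 0 then spl (F 0) (-(D * F 1)) else if c = 1 then spl (F 1) (-(D * F 0))
    else spl (F 2) (D * F 0)

/-- the excess of the curve -/
def ibz (D : ℤ) (F : Fin 3 → ℤ) : ℕ := exc (sp3 D F) (fun c => om (F c))

/-- **S_IMB**: the excess of the curve and of the tuple, `E = ES ..` as in `rankh`
(`Pool/Agent/L7h19/RH/Rank.lean`). For every class `c`: `nu cls s c ≤ om (F c) ≤ nu cls s c + Δ`,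
`s = S1 z y f`, `Δ = ∑ ω(S2 j) + z + 2 k |J|` (a prime that divides `F_c` divides `a c`, then it is
`≤ z`, or some `f j` with `cls j = c`; then it is `≤ z`, or in `(z, y]`, then it divides `S1 j` or
`S2 j`, or `> y`: at most `2 k` for each `j`, as `|f j| ≤ X ^ 2 < (y + 1) ^ (2 k)`). And
`nus cls s (ES ..) c ≤ sp3 D F c + ω(D)`: let `p ∣ s j`, `cls j = c`, `p ∤ D`, `p ∉ ES`; by `symbH` (Rank.lean)
`((kc .. j * v) * (sgM (c4 cls j) * (D * F (cpM (c4 cls j)))) / p) = 1` and `p ∉ ES` says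
`(kc .. j * v / p) ≠ -1`, so `(sgM * D * F (cpM ..) / p) = 1` (all the numbers are prime to `p`), where
`sgM * D * F (cpM)` is `-(D * F 1)`, `-(D * F 0)`, `D * F 0` for `c = 0, 1, 2`. Only one of the three
differences is positive. -/
def S_IMB : Prop := ∀ (J : Type) [Fintype J] [DecidableEq J] (cls : J → Fin 3) (a : Fin 3 → ℤ)
  (μ : J → ℕ) (α β : J → ℤ) (z : ℕ), (∀ k, a k ≠ 0) → (∀ k, (a k).natAbs ≤ z) → (∀ j, Odd (μ j)) →
  Bg α β z → (∀ k, Odd (∑ l ∈ fc (c4 cls) k, μ l)) →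
  ∀ (X y k : ℕ) (u v : ℤ), IsCoprime u v → (∀ j, fv α β u v j ≠ 0) →
  (∀ j, (fv α β u v j).natAbs ≤ X ^ 2) → 1 ≤ X → 1 ≤ y → X < (y + 1) ^ k → ∀ D : ℤ, D ≠ 0 →
  ibE cls (S1 z y (fv α β u v)) (ES cls a μ α β D (S1 z y (fv α β u v)) v) ≤
    ibz D (FM (c4 cls) a μ (fv α β u v)) + D.natAbs.primeFactors.card +
      2 * (∑ j, (S2 z y (fv α β u v) j).primeFactors.card + z + 2 * k * Fintype.card J)

/-- the summand -/
noncomputable def RA (k : ℕ) (cls : J → Fin 3) (a : Fin 3 → ℤ) (μ : J → ℕ) (α β : J → ℤ) (D : ℤ)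
    (t : ℤ × ℤ) : ℝ :=
  (2 ^ Module.finrank ℤ (EAB (D * FM (c4 cls) a μ (fv α β t.1 t.2) 0)
    (D * FM (c4 cls) a μ (fv α β t.1 t.2) 1)).toAffine.Point /
      2 ^ ibz D (FM (c4 cls) a μ (fv α β t.1 t.2))) ^ k

/-- the constant of the twist -/
def KK (k : ℕ) : ℕ := 256 ^ k

/-- **S_AVG** (compare `Pool.Agent.L7h19.RH.avgh`; from S_MAJ, S_GRO, S_IMB; helper72) -/
def S_AVG : Prop := ∀ (J : Type) [Fintype J] [DecidableEq J] (k : ℕ) (cls : J → Fin 3)
  (a : Fin 3 → ℤ) (μ : J → ℕ) (α β : J → ℤ), (∀ k, a k ≠ 0) → (∀ j, Odd (μ j)) → (∀ j, α j ≠ 0) →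
  (∀ j l, j ≠ l → Res α β j l ≠ 0) → (∀ k, Odd (∑ l ∈ fc (c4 cls) k, μ l)) →
  (∀ u v : ℤ, FM (c4 cls) a μ (fv α β u v) 0 - FM (c4 cls) a μ (fv α β u v) 1 =
      FM (c4 cls) a μ (fv α β u v) 2) →
  ∃ C : ℝ, 0 ≤ C ∧ ∀ D : ℤ, D ≠ 0 → ∀ X : ℕ, 1 ≤ X →
    ∑ t ∈ (Icc 1 X ×ˢ Icc 1 X).filter (fun t : ℕ × ℕ =>
      t.1.Coprime t.2 ∧ ∀ j, fv α β (t.1 : ℤ) (t.2 : ℤ) j ≠ 0),
      RA k cls a μ α β D ((t.1 : ℤ), (t.2 : ℤ)) ≤ C * ((KK k : ℝ) ^ D.natAbs.primeFactors.card * X ^ 2)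

/-- the bound over all the integral points of a box -/
def BND : Prop := ∀ (J : Type) [Fintype J] [DecidableEq J] (k : ℕ) (cls : J → Fin 3)
  (a : Fin 3 → ℤ) (μ : J → ℕ) (α β : J → ℤ), (∀ k, a k ≠ 0) → (∀ j, Odd (μ j)) →
  (∀ j l, j ≠ l → Res α β j l ≠ 0) → ∀ d : ℕ, Odd d → (∀ k, ∑ l ∈ fc (c4 cls) k, μ l = d) →
  (∀ u v : ℤ, FM (c4 cls) a μ (fv α β u v) 0 - FM (c4 cls) a μ (fv α β u v) 1 =
      FM (c4 cls) a μ (fv α β u v) 2) →
  ∃ C : ℝ, 0 ≤ C ∧ ∀ D : ℤ, D ≠ 0 → ∀ X : ℕ, 1 ≤ X →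
    ∑ t ∈ (Box X).filter (fun t => ∀ j, fv α β t.1 t.2 j ≠ 0), RA k cls a μ α β D t ≤
      C * ((KK k : ℝ) ^ D.natAbs.primeFactors.card * X ^ 2)

/-- **S_ALL** (from S_AVG): all the integral points of a box; adapt `Pool/Agent/L7h19/RH/Box.lean`
(`boxh`) and `Pool/Agent/L7h19/RH/All.lean` (`allh`); the shifts and signs of `boxh` do not change the
values `FM .. (fv ..)`, so `ibz` is the same. New only: for `t = g t'`, `D' = D g ^ d` (`d` odd),
`F(t) = g ^ d F(t')`: `ibz D' (F t') ≤ ibz D (F t) + 2 ω(g)` (`spl (g ^ d x) (± D g ^ d y) =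
spl x (± D g ^ d y)`: the symbol is `0` at `p ∣ g`; `om (g ^ d x) ≤ om x + ω(g)`), which costs
`4 ^ (k ω(g))`, and `∑_g c ^ ω(g) / g²` converges for every `c` (`sum_omega`). The crude bound is
`crude` (`RH/Avg.lean`), as `RA ≤ (2 ^ rank) ^ k`. -/
def S_ALL : Prop := S_AVG → BND

/-- the set of the excesses at the pairs of roots of `x³ + A x + B` -/
def IBset (c : ℤ × ℤ) : Set ℕ := {n | ∃ e1 e2 e3 : ℤ, e1 + e2 + e3 = 0 ∧
  e1 * e2 + e1 * e3 + e2 * e3 = c.1 ∧ -(e1 * e2 * e3) = c.2 ∧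
  n = spl (e2 - e3) (e2 - e1) - (om (e1 - e2) + om (e1 - e3))}

/-- the excess of the curve `y² = x³ + A x + B` -/
noncomputable def IB (c : ℤ × ℤ) : ℕ := sSup (IBset c)

/-- **S_HT** (from BND; compare `box2` (`RH/Ht2.lean`) and `main2` (`RH/Ht3.lean`)): with the roots
`r.1 < r.2.1 < r.2.2` of `RT3` and `FF c = (a, b) = (r.2.1 - r.1, r.2.2 - r.1)` one has
`ibz 1 ![a, b, a - b] = IB c`: the six orders of the roots give the three differences of `exc`, each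
twice (`spl (e3 - e2) (e3 - e1) = spl (e2 - e3) (e2 - e1)`, as `e2 ≡ e3` modulo the primes counted), and
at most one of the three is positive. -/
def S_HT : Prop := BND → ∀ k : ℕ, ∃ C : ℝ, ∀ H : ℕ, ∑ c ∈ Cv 2 H,
    ((2 : ℝ) ^ Module.finrank ℤ (Sh c.1 c.2).toAffine.Point / 2 ^ IB c) ^ k ≤ C * (Cv 2 H).card

/-- **S_BAD**: the curves with an excess are rare. `0 < IB c` implies
`om (e1 - e2) + om (e1 - e3) < om (e2 - e3)` for some order of the roots, so one of `a`, `b`, `a - b`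
(`FF c = (a, b)`) has fewer than `(1 - 1/4) L` or more than `(1 + 1/4) L` prime factors,
`L = log log H`; `|a|, |b| ≤ (128 H) ^ (1/6)` and `FF` is injective on `Cv 2 H` (`par2`, `RH/Ht3.lean`),
`|Cv 2 H| ≥ c T²` (`low2`, `RH/Ht2.lean`), and the number of the `n ≤ T` with an atypical number of
prime factors is at most `C T / (log T) ^ c` (Rankin: `∑_{n ≤ X} ρ ^ ω(n) ≤ C X (log X) ^ (ρ - 1)` for
`ρ = 1 ± 1/8`). -/
def S_BAD : Prop := ∃ c C : ℝ, 0 < c ∧ ∀ H : ℕ, 3 ≤ H →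
  (((Cv 2 H).filter (fun x => 0 < IB x)).card : ℝ) ≤ C * (Cv 2 H).card / (Real.log H) ^ c

end Pool.Agent.L7h72.AM2
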