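import Mathlib
import Pool.Agent.L7h72.AM.Stm2

/-!
# Project AM: the average over coprime pairs, uniformly in the twist
-/

set_option autoImplicit false
set_option linter.unusedSectionVars false

namespace Pool.Agent.L7h72.AM2

open Finset Pool.Agent.W262.RK Pool.Agent.W307.RT Pool.Agent.W571.RT Pool.Agent.L7h19.RH

lemma GA_nonneg {J : Type} [Fintype J] [DecidableEq J] (k : ℕ) (cls : J → Fin 3) (s : J → ℕ) :
    0 ≤ GA k cls s := by
  unfold GA
  refine mul_nonneg (by positivity) (sum_nonneg fun E _ => by positivity)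

lemma kpow (x : ℝ) (k a : ℕ) : (x ^ k) ^ a = (x ^ a) ^ k := by
  rw [← pow_mul, ← pow_mul, mul_comm]

theorem s_AVG (hMaj : S_MAJ) (hGro : S_GRO) (hImb : S_IMB) : S_AVG := by
  intro J _ _ m cls a μ α β ha hμ hα hR hodd hF
  classical
  set N := Fintype.card J with hN
  obtain ⟨z0, hz0⟩ := hMaj J cls m N
  set z : ℕ := z0 + (2 * N + 2) + ∑ k, (a k).natAbs + ∑ j, (α j).natAbs +
    ∑ j, ∑ l, (Res α β j l).natAbs + ∑ j, (kapM (c4 cls) a μ α β j).natAbs with hz
  have hB : Bg α β z := by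
    refine ⟨by omega, fun p hp hzp => ⟨fun j h => ?_, fun j l hjl h => ?_⟩⟩
    · have h1 := Nat.le_of_dvd (Int.natAbs_pos.2 (hα j)) (Int.natCast_dvd.1 h)
      have h2 := single_le_sum (f := fun j => (α j).natAbs) (fun _ _ => Nat.zero_le _) (mem_univ j)
      omega
    · have h1 := Nat.le_of_dvd (Int.natAbs_pos.2 (hR j l hjl)) (Int.natCast_dvd.1 h)
      have h2 := single_le_sum (f := fun l => (Res α β j l).natAbs) (fun _ _ => Nat.zero_le _)
        (mem_univ l)
      have h3 := single_le_sum (f := fun j => ∑ l, (Res α β j l).natAbs) (fun _ _ => Nat.zero_le _)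
        (mem_univ j)
      omega
  have haz : ∀ k, (a k).natAbs ≤ z := by
    intro k
    have h2 := single_le_sum (f := fun k => (a k).natAbs) (fun _ _ => Nat.zero_le _) (mem_univ k)
    omega
  have hpa : ∀ p : ℕ, p.Prime → z < p → ∀ k, ¬ (p : ℤ) ∣ a k := by
    intro p hp hzp k h
    have h1 := Nat.le_of_dvd (Int.natAbs_pos.2 (ha k)) (Int.natCast_dvd.1 h)
    have := haz k
    omega
  have hκ0 : ∀ j, kapM (c4 cls) a μ α β j ≠ 0 := Pool.Agent.W230.RT.kapM_ne ha hR
  have hκz : ∀ j, (kapM (c4 cls) a μ α β j).natAbs ≤ z := by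
    intro j
    have h2 := single_le_sum (f := fun j => (kapM (c4 cls) a μ α β j).natAbs)
      (fun _ _ => Nat.zero_le _) (mem_univ j)
    omega
  have hz2 : 2 ≤ z := by omega
  obtain ⟨C', hC'⟩ := hz0 z (by omega)
  obtain ⟨C, K, y0, hC0, hK1, hcn⟩ := cnts Pool.Agent.W340.RT.SVR2.svr2 α β z hB
  set y1 : ℕ := y0 + ∑ j, ((α j).natAbs + (β j).natAbs) + 1 with hy1
  -- the base `16 ^ m`
  set b : ℝ := 16 ^ m with hb
  have hb1 : 1 ≤ b := one_le_pow₀ (by norm_num)
  obtain ⟨X0, B2, hB2, key⟩ := Pool.Agent.L7h19.RJ.ant_u Pool.Agent.W591.RK2.ru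
    Pool.Agent.W358.RK2.gr (b := b) hb1 J z (GA m cls) (C * b ^ (z + 2)) C'
    (b ^ (2 * N)) K y1 N (by omega) (GA_nonneg m cls) (by positivity) (one_le_pow₀ hb1)
    (fun y _ s e hse => by
      refine (hGro J cls m z y s e hse).trans ?_
      refine mul_le_mul_of_nonneg_right ?_ (GA_nonneg _ _ _)
      refine pow_le_pow_left₀ (by positivity) ?_ _
      rw [hb]
      exact pow_le_pow_left₀ (by norm_num) (by norm_num) _)
    hC'
  set F : ℕ × ℕ → Fin 3 → ℤ := fun t => FM (c4 cls) a μ (fv α β (t.1 : ℤ) (t.2 : ℤ)) with hFd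
  set T : ℝ := ((KK m : ℕ) : ℝ) with hT
  have hTm : T = 256 ^ m := by
    rw [hT]
    unfold KK
    push_cast
    rfl
  have hT1 : 1 ≤ T := by rw [hTm]; exact one_le_pow₀ (by norm_num)
  set G0 : ℕ × ℕ → ℝ := fun t =>
    (4 ^ ((2 * F t 0 * F t 1 * (F t 0 - F t 1)).natAbs.primeFactors.card + 2)) ^ m with hG0
  set C0 : ℝ := ∑ t ∈ Icc 1 X0 ×ˢ Icc 1 X0, G0 t with hC0d
  have hC00 : 0 ≤ C0 := sum_nonneg fun t _ => by positivity
  have hRA0 : ∀ (D : ℤ) (t : ℤ × ℤ), 0 ≤ RA m cls a μ α β D t := fun D t => by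
    unfold RA
    positivity
  refine ⟨B2 + C0, by positivity, fun D hD X hX => ?_⟩
  have hX1' : (1 : ℝ) ≤ X := by exact_mod_cast hX
  have hω1 : (1 : ℝ) ≤ T ^ D.natAbs.primeFactors.card := one_le_pow₀ hT1
  rcases Nat.lt_or_ge X X0 with hXX | hXX
  · -- small `X`
    have h1 : ∀ t ∈ (Icc 1 X ×ˢ Icc 1 X).filter (fun t : ℕ × ℕ =>
        t.1.Coprime t.2 ∧ ∀ j, fv α β (t.1 : ℤ) (t.2 : ℤ) j ≠ 0),
        RA m cls a μ α β D ((t.1 : ℤ), (t.2 : ℤ)) ≤
        T ^ D.natAbs.primeFactors.card * G0 t := by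
      intro t ht
      rw [mem_filter] at ht
      have hFne : ∀ k, F t k ≠ 0 := fun k =>
        mul_ne_zero (ha k) (prod_ne_zero_iff.2 fun l _ => pow_ne_zero _ (ht.2.2 l))
      have h2 := crude (D := D) (hFne 0) (hFne 1)
        (fun h => hFne 2 (by
          have := hF (t.1 : ℤ) (t.2 : ℤ)
          show FM (c4 cls) a μ (fv α β (t.1 : ℤ) (t.2 : ℤ)) 2 = 0
          rw [← this]
          exact sub_eq_zero.2 h)) hD
      have h3 : (2 : ℝ) ^ Module.finrank ℤ (EAB (D * F t 0) (D * F t 1)).toAffine.Point ≤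
          4 ^ (D.natAbs.primeFactors.card +
            ((2 * F t 0 * F t 1 * (F t 0 - F t 1)).natAbs.primeFactors.card + 2)) := by
        exact_mod_cast h2
      have h4 : RA m cls a μ α β D ((t.1 : ℤ), (t.2 : ℤ)) ≤
          ((2 : ℝ) ^ Module.finrank ℤ (EAB (D * F t 0) (D * F t 1)).toAffine.Point) ^ m := by
        unfold RA
        refine pow_le_pow_left₀ (by positivity) ?_ _
        exact div_le_self (by positivity) (one_le_pow₀ (by norm_num))
      calc _ ≤ _ := h4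
        _ ≤ (4 ^ (D.natAbs.primeFactors.card +
            ((2 * F t 0 * F t 1 * (F t 0 - F t 1)).natAbs.primeFactors.card + 2))) ^ m :=
            pow_le_pow_left₀ (by positivity) h3 m
        _ = (4 ^ m) ^ D.natAbs.primeFactors.card * G0 t := by
            rw [hG0]
            dsimp only
            rw [pow_add, mul_pow, kpow 4 m D.natAbs.primeFactors.card]
        _ ≤ _ := by
            apply mul_le_mul_of_nonneg_right _ (by positivity)
            refine pow_le_pow_left₀ (by positivity) ?_ _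
            rw [hTm]
            exact pow_le_pow_left₀ (by norm_num) (by norm_num) _
    refine (sum_le_sum h1).trans ?_
    rw [← mul_sum]
    have h4 : ∑ t ∈ (Icc 1 X ×ˢ Icc 1 X).filter (fun t : ℕ × ℕ =>
        t.1.Coprime t.2 ∧ ∀ j, fv α β (t.1 : ℤ) (t.2 : ℤ) j ≠ 0), G0 t ≤ C0 := by
      apply sum_le_sum_of_subset_of_nonneg
      · intro t ht
        rw [mem_filter, mem_product, mem_Icc, mem_Icc] at ht
        rw [mem_product, mem_Icc, mem_Icc]
        omega
      · intro t _ _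
        positivity
    have h5 : C0 ≤ (B2 + C0) * X ^ 2 := by
      have : (1 : ℝ) ≤ (X : ℝ) ^ 2 := one_le_pow₀ hX1'
      nlinarith
    calc T ^ D.natAbs.primeFactors.card * ∑ t ∈ (Icc 1 X ×ˢ Icc 1 X).filter
          (fun t : ℕ × ℕ => t.1.Coprime t.2 ∧ ∀ j, fv α β (t.1 : ℤ) (t.2 : ℤ) j ≠ 0), G0 t
        ≤ T ^ D.natAbs.primeFactors.card * ((B2 + C0) * X ^ 2) :=
          mul_le_mul_of_nonneg_left (h4.trans h5) (by positivity)
      _ = _ := by ring
  have hmain := key (ℕ × ℕ) X ((Icc 1 X ×ˢ Icc 1 X).filter (fun t : ℕ × ℕ =>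
      t.1.Coprime t.2 ∧ ∀ j, fv α β (t.1 : ℤ) (t.2 : ℤ) j ≠ 0))
    (T ^ D.natAbs.primeFactors.card * (X : ℝ) ^ 2)
    (fun t => fv α β (t.1 : ℤ) (t.2 : ℤ))
    (fun t => RA m cls a μ α β D ((t.1 : ℤ), (t.2 : ℤ)))
    hXX (by positivity) (fun ω hω => by
      rw [mem_filter] at hω
      exact Pool.Agent.W230.RT.gd_fv hB hω.2.1 hω.2.2) (fun t => hRA0 _ _) ?_
  · refine hmain.trans ?_
    apply mul_le_mul_of_nonneg_right _ (by positivity)
    linarith
  intro y Y k hy0 hzy hyK hk s hs v hv u hu h8 T' hT' hT2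
  have hy00 : y0 ≤ y := by omega
  have hyX : y ≤ X := by
    rcases Nat.eq_zero_or_pos y with h | h
    · omega
    · exact le_trans (Nat.le_self_pow (by omega) y) hyK
  have hX1 : 1 ≤ X := by omega
  set W : ℝ := T ^ D.natAbs.primeFactors.card * (b ^ (z + 2) * (b ^ (2 * N)) ^ k *
    b ^ (∑ j, (v j).primeFactors.card)) with hW
  have hW0 : 0 ≤ W := by positivity
  set g : Finset ℕ → ℝ := fun E => ((NL (∏ j, s j) (LSs cls s E) : ℝ) / 2 ^ ibE cls s E) ^ m with hg
  have hg0 : ∀ E, 0 ≤ g E := fun E => by rw [hg]; positivity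
  set Et : ℕ × ℕ → Finset ℕ := fun t => ES cls a μ α β D s (t.2 : ℤ) with hEt
  have h1 : ∀ t ∈ T', RA m cls a μ α β D ((t.1 : ℤ), (t.2 : ℤ)) ≤ W * g (Et t) := by
    intro t ht
    have ht1 := hT' ht
    rw [mem_filter, mem_product, mem_Icc, mem_Icc] at ht1
    obtain ⟨hts, htv, _⟩ := hT2 t ht
    have hbd : ∀ j, (fv α β (t.1 : ℤ) (t.2 : ℤ) j).natAbs ≤ X ^ 2 := fun j => by
      unfold fv
      have h3 := Int.natAbs_add_le (α j * (t.1 : ℤ)) (β j * (t.2 : ℤ))
      rw [Int.natAbs_mul, Int.natAbs_mul, Int.natAbs_natCast, Int.natAbs_natCast] at h3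
      have h4 := single_le_sum (f := fun j => (α j).natAbs + (β j).natAbs)
        (fun _ _ => Nat.zero_le _) (mem_univ j)
      have h5 : t.1 ≤ X := ht1.1.1.2
      have h5' : t.2 ≤ X := ht1.1.2.2
      have h6 : (α j).natAbs + (β j).natAbs ≤ X := by
        have h4' : (α j).natAbs + (β j).natAbs ≤ ∑ j, ((α j).natAbs + (β j).natAbs) := h4
        omega
      calc (α j * (t.1 : ℤ) + β j * (t.2 : ℤ)).natAbs
          ≤ (α j).natAbs * t.1 + (β j).natAbs * t.2 := h3
        _ ≤ (α j).natAbs * X + (β j).natAbs * X :=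
            add_le_add (Nat.mul_le_mul_left _ h5) (Nat.mul_le_mul_left _ h5')
        _ = ((α j).natAbs + (β j).natAbs) * X := by ring
        _ ≤ X * X := Nat.mul_le_mul_right _ h6
        _ = X ^ 2 := by ring
    have hr := rankh cls a μ α β z ha hμ hB hpa hodd hκ0 hκz hF X y k (t.1 : ℤ)
      (t.2 : ℤ) (Nat.isCoprime_iff_coprime.2 ht1.2.1) ht1.2.2 hbd hX1 (by omega) hk D hD
    have hi := hImb J cls a μ α β z ha haz hμ hB hodd X y k (t.1 : ℤ)
      (t.2 : ℤ) (Nat.isCoprime_iff_coprime.2 ht1.2.1) ht1.2.2 hbd hX1 (by omega) hk D hD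
    have hts' : S1 z y (fv α β (t.1 : ℤ) (t.2 : ℤ)) = s := hts
    have htv' : S2 z y (fv α β (t.1 : ℤ) (t.2 : ℤ)) = v := htv
    rw [hts', htv'] at hr hi
    set wD := D.natAbs.primeFactors.card with hwD
    set wv := ∑ j, (v j).primeFactors.card with hwv
    set iz := ibz D (FM (c4 cls) a μ (fv α β (t.1 : ℤ) (t.2 : ℤ))) with hiz
    set is := ibE cls s (Et t) with his
    have hi' : is ≤ iz + wD + 2 * (wv + z + 2 * k * N) := hi
    have hr' : (2 : ℝ) ^ Module.finrank ℤ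
        (EAB (D * FM (c4 cls) a μ (fv α β (t.1 : ℤ) (t.2 : ℤ)) 0)
        (D * FM (c4 cls) a μ (fv α β (t.1 : ℤ) (t.2 : ℤ)) 1)).toAffine.Point ≤
        64 ^ wD * (4 ^ (z + 2) * (16 ^ N) ^ k * 4 ^ wv *
          (NL (∏ j, s j) (LSs cls s (Et t)) : ℝ)) := by
      exact_mod_cast hr
    -- the damping
    have hd : (2 : ℝ) ^ is ≤ 2 ^ iz * (2 ^ wD * (4 ^ wv * 4 ^ z * (16 ^ N) ^ k)) := by
      refine (pow_le_pow_right₀ (by norm_num) hi').trans (le_of_eq ?_)
      have e1 : (4 : ℝ) = 2 ^ 2 := by norm_num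
      have e2 : (16 : ℝ) = 2 ^ 4 := by norm_num
      rw [e1, e2, ← pow_mul, ← pow_mul, ← pow_mul, ← pow_mul, ← pow_add, ← pow_add, ← pow_add,
        ← pow_add]
      congr 1
      ring
    have hmn : (2 : ℝ) ^ Module.finrank ℤ
        (EAB (D * FM (c4 cls) a μ (fv α β (t.1 : ℤ) (t.2 : ℤ)) 0)
        (D * FM (c4 cls) a μ (fv α β (t.1 : ℤ) (t.2 : ℤ)) 1)).toAffine.Point / 2 ^ iz ≤
        256 ^ wD * (16 ^ (z + 2) * (16 ^ (2 * N)) ^ k * 16 ^ wv) *
          ((NL (∏ j, s j) (LSs cls s (Et t)) : ℝ) / 2 ^ is) := by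
      have hiz0 : (0 : ℝ) < 2 ^ iz := by positivity
      have his0 : (0 : ℝ) < 2 ^ is := by positivity
      rw [div_le_iff₀ hiz0]
      have hn0 : (0 : ℝ) ≤ (NL (∏ j, s j) (LSs cls s (Et t)) : ℝ) := Nat.cast_nonneg _
      calc _ ≤ 64 ^ wD * (4 ^ (z + 2) * (16 ^ N) ^ k * 4 ^ wv *
            (NL (∏ j, s j) (LSs cls s (Et t)) : ℝ)) := hr'
        _ = 64 ^ wD * (4 ^ (z + 2) * (16 ^ N) ^ k * 4 ^ wv) *
            ((NL (∏ j, s j) (LSs cls s (Et t)) : ℝ) / 2 ^ is) * 2 ^ is := by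
            field_simp
        _ ≤ 64 ^ wD * (4 ^ (z + 2) * (16 ^ N) ^ k * 4 ^ wv) *
            ((NL (∏ j, s j) (LSs cls s (Et t)) : ℝ) / 2 ^ is) *
              (2 ^ iz * (2 ^ wD * (4 ^ wv * 4 ^ z * (16 ^ N) ^ k))) :=
            mul_le_mul_of_nonneg_left hd (by positivity)
        _ = (64 ^ wD * 2 ^ wD) * ((4 ^ (z + 2) * 4 ^ z) * ((16 ^ N) ^ k * (16 ^ N) ^ k) *
              (4 ^ wv * 4 ^ wv)) *
            ((NL (∏ j, s j) (LSs cls s (Et t)) : ℝ) / 2 ^ is) * 2 ^ iz := by ring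
        _ ≤ 256 ^ wD * (16 ^ (z + 2) * (16 ^ (2 * N)) ^ k * 16 ^ wv) *
            ((NL (∏ j, s j) (LSs cls s (Et t)) : ℝ) / 2 ^ is) * 2 ^ iz := by
            refine mul_le_mul_of_nonneg_right (mul_le_mul_of_nonneg_right ?_ (by positivity))
              hiz0.le
            have e1 : (64 : ℝ) ^ wD * 2 ^ wD ≤ 256 ^ wD := by
              rw [← mul_pow]
              exact pow_le_pow_left₀ (by norm_num) (by norm_num) _
            have e2 : (4 : ℝ) ^ (z + 2) * 4 ^ z ≤ 16 ^ (z + 2) := by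
              calc (4 : ℝ) ^ (z + 2) * 4 ^ z ≤ 4 ^ (z + 2) * 4 ^ (z + 2) :=
                    mul_le_mul_of_nonneg_left (pow_le_pow_right₀ (by norm_num) (by omega))
                      (by positivity)
                _ = 16 ^ (z + 2) := by rw [← mul_pow]; norm_num
            have e3 : ((16 : ℝ) ^ N) ^ k * (16 ^ N) ^ k = (16 ^ (2 * N)) ^ k := by
              rw [← mul_pow, ← pow_add]
              congr 2
              ring
            have e4 : (4 : ℝ) ^ wv * 4 ^ wv = 16 ^ wv := by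
              rw [← mul_pow]
              norm_num
            rw [e3, e4]
            gcongr
    unfold RA
    refine (pow_le_pow_left₀ (by positivity) hmn m).trans (le_of_eq ?_)
    rw [hW, hg, hTm, hb]
    dsimp only
    rw [mul_pow, mul_pow, mul_pow, mul_pow, kpow 256 m, kpow 16 m (z + 2), kpow 16 m (2 * N),
      kpow 16 m wv, kpow (16 ^ (2 * N)) m k]
  set Q : ℝ := C * X ^ 2 * (1 / 2) ^ (Q0 s).card * (∏ j, gw 1 N (s j)) *
        (∏ j, gw 1 N (v j) / v j) * (∏ j, 1 / (u j : ℝ)) / (Real.log y) ^ N with hQ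
  have hsT := mem_Tup'.1 hs
  have h3 : ∀ E, ((T'.filter (fun t => Et t = E)).card : ℝ) ≤ Q := by
    intro E
    set e : ℕ → Bool := fun p => if h : ∃ j, p ∣ s j then
      xor (sg0 p (kc cls a μ α β D h.choose)) (decide (p ∈ E)) else false with he
    refine le_trans ?_ (hcn X y Y hy00 hzy hyK s hs v hv u hu h8 e)
    have h4 : T'.filter (fun t => Et t = E) ⊆ (Icc 1 X ×ˢ Icc 1 X).filter (fun t : ℕ × ℕ =>
        t.1.Coprime t.2 ∧
        S1 z y (fv α β (t.1 : ℤ) (t.2 : ℤ)) = s ∧ S2 z y (fv α β (t.1 : ℤ) (t.2 : ℤ)) = v ∧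
        (∀ j, (u j : ℤ) ∣ fv α β (t.1 : ℤ) (t.2 : ℤ) j) ∧
        ∀ p ∈ Q0 s, sg0 p (t.2 : ℤ) = e p) := by
      intro t ht
      rw [mem_filter] at ht
      have ht1 := hT' ht.1
      rw [mem_filter] at ht1
      rw [mem_filter]
      refine ⟨ht1.1, ht1.2.1, (hT2 t ht.1).1, (hT2 t ht.1).2.1, (hT2 t ht.1).2.2, ?_⟩
      intro p hp
      have hpp := Nat.prime_of_mem_primeFactors hp
      have hex : ∃ j, p ∣ s j := by
        obtain ⟨j, _, hj⟩ := (hpp.prime.dvd_finsetProd_iff _).1 (Nat.dvd_of_mem_primeFactors hp)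
        exact ⟨j, hj⟩
      have hch := hex.choose_spec
      have hep : e p = xor (sg0 p (kc cls a μ α β D hex.choose)) (decide (p ∈ E)) := by
        rw [he]
        simp only
        rw [dif_pos hex]
      have huq : ∀ l, p ∣ s l → l = hex.choose := by
        intro l hl
        by_contra hne
        have h5 := hsT.2 l hex.choose hne
        have h6 : p ∣ (s l).gcd (s hex.choose) := Nat.dvd_gcd hl hch
        rw [h5.gcd_eq_one] at h6
        exact hpp.one_lt.ne' (Nat.dvd_one.1 h6)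
      rw [hep]
      generalize hex.choose = j0 at hch huq ⊢
      have hiff : p ∈ E ↔ xor (sg0 p (kc cls a μ α β D j0)) (sg0 p (t.2 : ℤ)) = true := by
        rw [← ht.2, hEt]
        simp only
        unfold ES
        rw [mem_filter]
        constructor
        · rintro ⟨_, l, hl, hl2⟩
          rw [huq l hl] at hl2
          exact hl2
        · intro h
          exact ⟨hp, j0, hch, h⟩
      by_cases hpE : p ∈ E
      · have h7 := hiff.1 hpE
        rw [decide_eq_true hpE]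
        revert h7
        generalize sg0 p (kc cls a μ α β D j0) = b1
        generalize sg0 p (t.2 : ℤ) = b2
        revert b1 b2
        decide
      · have h7 : ¬ (xor (sg0 p (kc cls a μ α β D j0)) (sg0 p (t.2 : ℤ)) = true) :=
          fun h => hpE (hiff.2 h)
        rw [decide_eq_false hpE]
        revert h7
        generalize sg0 p (kc cls a μ α β D j0) = b1
        generalize sg0 p (t.2 : ℤ) = b2
        revert b1 b2
        decide
    exact_mod_cast card_le_card h4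
  have hmaps : ∀ t ∈ T', Et t ∈ (Q0 s).powerset := by
    intro t _
    rw [mem_powerset, hEt]
    simp only
    unfold ES
    exact filter_subset _ _
  calc ∑ t ∈ T', RA m cls a μ α β D ((t.1 : ℤ), (t.2 : ℤ))
      ≤ ∑ t ∈ T', W * g (Et t) := sum_le_sum h1
    _ = ∑ E ∈ (Q0 s).powerset, ∑ t ∈ T'.filter (fun t => Et t = E), W * g (Et t) :=
        (sum_fiberwise_of_maps_to hmaps _).symm
    _ = ∑ E ∈ (Q0 s).powerset, ((T'.filter (fun t => Et t = E)).card : ℝ) * (W * g E) := by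
        apply sum_congr rfl
        intro E _
        rw [← nsmul_eq_mul, ← sum_const]
        apply sum_congr rfl
        intro t ht
        rw [(mem_filter.1 ht).2]
    _ ≤ ∑ E ∈ (Q0 s).powerset, Q * (W * g E) := by
        apply sum_le_sum
        intro E _
        exact mul_le_mul_of_nonneg_right (h3 E) (mul_nonneg hW0 (hg0 E))
    _ = _ := by
        have e2 : (∏ j, b ^ (v j).primeFactors.card * (gw 1 N (v j) / v j)) =
            b ^ (∑ j, (v j).primeFactors.card) * ∏ j, (gw 1 N (v j) / v j) := by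
          rw [prod_mul_distrib, prod_pow_eq_pow_sum]
        rw [← mul_sum, ← mul_sum, e2, hQ, hW]
        unfold GA
        ring

end Pool.Agent.L7h72.AM2
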