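import Mathlib
import Pool.Agent.L7h72.AM.Stm2

/-!
# Project AM: consequences of the moment bounds
-/

set_option autoImplicit false

namespace Pool.Agent.L7h72.AM2

open Finset Pool.Agent.W262.RK Pool.Agent.W307.RT Pool.Agent.L7h19.RH

/-- Markov: the curves with `rank ≥ r + e` -/
lemma markov {ι : Type} (S : Finset ι) (R : ι → ℝ) (k : ℕ) (A : ℝ) (hR : ∀ x, 0 ≤ R x)
    (h : ∑ x ∈ S, R x ^ k ≤ A) (T : Finset ι) (hT : T ⊆ S) (y : ℝ) (hy : 0 < y)
    (hTy : ∀ x ∈ T, y ≤ R x) : (T.card : ℝ) ≤ A / y ^ k := by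
  rw [le_div_iff₀ (by positivity)]
  calc (T.card : ℝ) * y ^ k = ∑ _x ∈ T, y ^ k := by rw [sum_const, nsmul_eq_mul]
    _ ≤ ∑ x ∈ T, R x ^ k := sum_le_sum fun x hx => pow_le_pow_left₀ hy.le (hTy x hx) k
    _ ≤ ∑ x ∈ S, R x ^ k := sum_le_sum_of_subset_of_nonneg hT fun x _ _ => pow_nonneg (hR x) k
    _ ≤ A := h

/-- **the tails** -/
theorem tails {ι : Type} (Fam : ℕ → Finset ι) (rk ex : ι → ℕ)
    (h4 : ∃ C : ℝ, ∀ H, ∑ x ∈ Fam H, (4 : ℝ) ^ rk x ≤ C * (Fam H).card)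
    (hk : ∀ k : ℕ, ∃ C : ℝ, ∀ H, ∑ x ∈ Fam H, ((2 : ℝ) ^ rk x / 2 ^ ex x) ^ k ≤ C * (Fam H).card)
    (hb : ∃ c C : ℝ, 0 < c ∧ ∀ H : ℕ, 3 ≤ H →
      (((Fam H).filter (fun x => 0 < ex x)).card : ℝ) ≤ C * (Fam H).card / (Real.log H) ^ c) :
    ∃ c : ℝ, 0 < c ∧ (∃ C : ℝ, ∀ H : ℕ, 3 ≤ H →
      (((Fam H).filter (fun x => 0 < ex x)).card : ℝ) ≤ C * (Fam H).card / (Real.log H) ^ c) ∧
      ∀ k : ℕ, ∃ C : ℝ, ∀ H r : ℕ, 3 ≤ H →
      (((Fam H).filter (fun x => r ≤ rk x)).card : ℝ) ≤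
        C * (1 / 2 ^ (k * r) + 1 / (2 ^ r * (Real.log H) ^ c)) * (Fam H).card := by
  classical
  obtain ⟨c, Cb, hc, hCb⟩ := hb
  obtain ⟨C4, hC4⟩ := h4
  have hlg : ∀ H : ℕ, 3 ≤ H → 1 < Real.log H := fun H hH => by
    have hHr : (3 : ℝ) ≤ H := by exact_mod_cast hH
    rw [Real.lt_log_iff_exp_lt (by linarith)]
    have := Real.exp_one_lt_d9
    linarith
  refine ⟨c / 2, by positivity, ⟨|Cb|, fun H hH => ?_⟩, fun k => ?_⟩
  · have h1 := hlg H hH
    refine (hCb H hH).trans ?_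
    have h2 : (Real.log H) ^ (c / 2) ≤ (Real.log H) ^ c :=
      Real.rpow_le_rpow_of_exponent_le h1.le (by linarith)
    have h3 : 0 < (Real.log H) ^ (c / 2) := Real.rpow_pos_of_pos (by linarith) _
    have h4 : Cb * ((Fam H).card : ℝ) ≤ |Cb| * ((Fam H).card : ℝ) :=
      mul_le_mul_of_nonneg_right (le_abs_self _) (Nat.cast_nonneg _)
    exact div_le_div₀ (by positivity) h4 h3 h2
  obtain ⟨Ck, hCk⟩ := hk k
  refine ⟨|Ck| + (|C4| + |Cb|), fun H r hH => ?_⟩
  set n : ℝ := ((Fam H).card : ℝ) with hn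
  have hn0 : 0 ≤ n := Nat.cast_nonneg _
  have hHr : (3 : ℝ) ≤ H := by exact_mod_cast hH
  have hlog : 1 < Real.log H := by
    rw [Real.lt_log_iff_exp_lt (by linarith)]
    have := Real.exp_one_lt_d9
    linarith
  set L : ℝ := Real.log H with hL
  have hL0 : 0 < L := by linarith
  have hLc : 0 < L ^ c := Real.rpow_pos_of_pos hL0 c
  set A := (Fam H).filter (fun x => r ≤ rk x) with hA
  set A0 := A.filter (fun x => ex x = 0) with hA0
  set A1 := A.filter (fun x => ¬ ex x = 0) with hA1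
  have hsplit : (A.card : ℝ) = A0.card + A1.card := by
    rw [hA0, hA1]
    exact_mod_cast (card_filter_add_card_filter_not (s := A) (fun x => ex x = 0)).symm
  have hb0 : (A0.card : ℝ) ≤ |Ck| * n * (1 / 2 ^ (k * r)) := by
    have h1 := markov (Fam H) (fun x => (2 : ℝ) ^ rk x / 2 ^ ex x) k _ (fun x => by positivity)
      (hCk H) A0 ((filter_subset _ _).trans (filter_subset _ _)) (2 ^ r) (by positivity)
      (fun x hx => by
        rw [hA0, mem_filter, hA, mem_filter] at hx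
        rw [hx.2, pow_zero, div_one]
        exact pow_le_pow_right₀ (by norm_num) hx.1.2)
    refine h1.trans ?_
    rw [← pow_mul, mul_comm r k, mul_one_div]
    refine div_le_div_of_nonneg_right ?_ (by positivity)
    exact mul_le_mul_of_nonneg_right (le_abs_self _) hn0
  have hb1 : (A1.card : ℝ) ≤ |C4| * n * (1 / 2 ^ (2 * r)) := by
    have h3 : ∑ x ∈ Fam H, ((2 : ℝ) ^ rk x) ^ 2 ≤ C4 * n := by
      refine le_trans (le_of_eq ?_) (hC4 H)
      refine sum_congr rfl fun x _ => ?_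
      rw [← pow_mul, mul_comm, pow_mul, show (2 : ℝ) ^ 2 = 4 by norm_num]
    have h1 := markov (Fam H) (fun x => (2 : ℝ) ^ rk x) 2 _ (fun x => by positivity)
      h3 A1 ((filter_subset _ _).trans (filter_subset _ _)) (2 ^ r) (by positivity)
      (fun x hx => by
        rw [hA1, mem_filter, hA, mem_filter] at hx
        exact pow_le_pow_right₀ (by norm_num) hx.1.2)
    refine h1.trans ?_
    rw [← pow_mul, mul_comm r 2, mul_one_div]
    refine div_le_div_of_nonneg_right ?_ (by positivity)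
    exact mul_le_mul_of_nonneg_right (le_abs_self _) hn0
  have hb2 : (A1.card : ℝ) ≤ |Cb| * n * (1 / L ^ c) := by
    have h1 : A1.card ≤ ((Fam H).filter (fun x => 0 < ex x)).card := by
      refine card_le_card fun x hx => ?_
      rw [hA1, mem_filter, hA, mem_filter] at hx
      rw [mem_filter]
      exact ⟨hx.1.1, Nat.pos_of_ne_zero hx.2⟩
    have h2 : (A1.card : ℝ) ≤ (((Fam H).filter (fun x => 0 < ex x)).card : ℝ) := by exact_mod_cast h1
    refine h2.trans ((hCb H hH).trans ?_)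
    rw [mul_one_div]
    refine div_le_div_of_nonneg_right ?_ hLc.le
    exact mul_le_mul_of_nonneg_right (le_abs_self _) hn0
  -- the geometric mean
  have hb3 : (A1.card : ℝ) ≤ (|C4| + |Cb|) * n * (1 / (2 ^ r * L ^ (c / 2))) := by
    have h0 : (0 : ℝ) ≤ A1.card := Nat.cast_nonneg _
    have h2r : (0 : ℝ) < 2 ^ r := by positivity
    have hLc2 : 0 < L ^ (c / 2) := Real.rpow_pos_of_pos hL0 _
    have hLL : L ^ c = L ^ (c / 2) * L ^ (c / 2) := by
      rw [← Real.rpow_add hL0]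
      congr 1
      ring
    have h1 : (A1.card : ℝ) * A1.card ≤
        (|C4| * n * (1 / 2 ^ (2 * r))) * (|Cb| * n * (1 / L ^ c)) :=
      mul_le_mul hb1 hb2 h0 (by positivity)
    refine le_of_sq_le_sq ?_ (by positivity)
    calc (A1.card : ℝ) ^ 2 = (A1.card : ℝ) * A1.card := sq _
      _ ≤ _ := h1
      _ = (|C4| * |Cb|) * n ^ 2 * (1 / (2 ^ r * L ^ (c / 2))) ^ 2 := by
          rw [hLL, two_mul, pow_add]
          field_simp
      _ ≤ (|C4| + |Cb|) ^ 2 * n ^ 2 * (1 / (2 ^ r * L ^ (c / 2))) ^ 2 := by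
          refine mul_le_mul_of_nonneg_right (mul_le_mul_of_nonneg_right ?_ (by positivity))
            (by positivity)
          nlinarith [abs_nonneg C4, abs_nonneg Cb]
      _ = _ := by ring
  rw [hsplit]
  have e1 : 0 ≤ (1 : ℝ) / 2 ^ (k * r) := by positivity
  have e2 : 0 ≤ 1 / (2 ^ r * L ^ (c / 2)) := by positivity
  have e3 := abs_nonneg Ck
  have e4 := abs_nonneg C4
  have e5 := abs_nonneg Cb
  calc (A0.card : ℝ) + A1.card ≤ |Ck| * n * (1 / 2 ^ (k * r)) +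
        (|C4| + |Cb|) * n * (1 / (2 ^ r * L ^ (c / 2))) := add_le_add hb0 hb3
    _ ≤ (|Ck| + (|C4| + |Cb|)) * n * (1 / 2 ^ (k * r)) +
        (|Ck| + (|C4| + |Cb|)) * n * (1 / (2 ^ r * L ^ (c / 2))) := by
        refine add_le_add (mul_le_mul_of_nonneg_right (mul_le_mul_of_nonneg_right ?_ hn0) e1)
          (mul_le_mul_of_nonneg_right (mul_le_mul_of_nonneg_right ?_ hn0) e2)
        · linarith
        · linarith
    _ = _ := by ring

end Pool.Agent.L7h72.AM2
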