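import Mathlib
import Pool.Agent.L7h72.AM.Stm2
import Pool.Agent.L7h19.FT.Stm

/-!
# Project AM: comparison of the two numbers of solutions
-/

set_option autoImplicit false

namespace Pool.Agent.L7h72.AM2

open Finset Pool.Agent.W262.RK Pool.Agent.W307.RT Pool.Agent.L7h19.RH
open Pool.Agent.L7h19.FT (N0 mc Ms Mo Mt ex)

/-- **S_NL0**: the number `NL` of the pairs `(d₁, d₂)` (project RH) is at most the number `N0` of the
divisors `d` (project FT). Map `(d₁, d₂)` to `d =` the product of the primes that divide `d₁` or `d₂`
(`lcm`). By `LS` a prime of the class 0 divides both or none (`v = w`), a prime of the class 1 does not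
divide `d₂` (`w = false`), a prime of the class 2 does not divide `d₁` (`v = false`), so `(d₁, d₂)` is
determined by `d`. The condition of `N0` at `p` says that
`(-1 if p ∣ d and p ∈ E) * ∏ (q / p) = 1`, the product over the `q ∣ d` of the classes different from that
of `p`. Class 0: `h xor g = (v && neg)`, `h`, `g` are the symbols of the parts of `d₁`, `d₂` prime to
`p` (`sgn p d = sg0 p (d / gcd d p)`, `sg0 p k = true` iff `(k / p) = -1`); the primes of the class 0
divide both, so `h xor g` is the symbol of the product of the `q ∣ d` of the classes 1 and 2. Class 1: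
`g = (v && neg)`, `d₂` is the product of the `q ∣ d` of the classes 0 and 2. Class 2: `h = (w && neg)`,
`d₁` is the product of the `q ∣ d` of the classes 0 and 1. All the primes are `> z ≥ 2`. -/
def S_NL0 : Prop := ∀ (J : Type) [Fintype J] [DecidableEq J] (cls : J → Fin 3) (z y : ℕ) (s : J → ℕ)
  (E : Finset ℕ), 2 ≤ z → s ∈ Tup J z y → NL (∏ j, s j) (LSs cls s E) ≤ N0 (mc cls s) E

/-- **S_EX0**: the exponents: `nus cls s E c = ω(Ms (mc cls s) E c)`, `nu` of the two other classes
`= ω(Mo (mc cls s) c)`, and the maximum of the three numbers `(dl c).toNat` is at most `exc`. -/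
def S_EX0 : Prop := ∀ (J : Type) [Fintype J] [DecidableEq J] (cls : J → Fin 3) (z y : ℕ) (s : J → ℕ)
  (E : Finset ℕ), s ∈ Tup J z y → ex ∅ (mc cls s) E ≤ ibE cls s E

end Pool.Agent.L7h72.AM2
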