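import Mathlib
import Pool.Agent.L7h19.FT.Maj
import Pool.Agent.L7h72.FT.CombT
import Pool.Agent.L7h72.AM.Stm3

/-!
# Project AM: the average of the majorant, by height
-/

set_option autoImplicit false
set_option linter.unusedSectionVars false

namespace Pool.Agent.L7h72.AM2

open Finset Polynomial Pool.Agent.W262.RK Pool.Agent.W307.RT Pool.Agent.L7h19.RH
open Pool.Agent.L7h19.RP Pool.Agent.L7h19.IS
open Pool.Agent.L7h19.FT (N0 mc Ms Mo Mt ex gF avE WE WHyp S_EXT S_EXF S_CT S_LAF S_UP2 avgF)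
open Pool.Agent.L7h19.RP.AT (gm)
open Pool.Agent.H474R2.PG (rho)

variable {J : Type} [Fintype J] [DecidableEq J] {z y : ℕ}

/-- the weights -/
noncomputable def aH (c : ℕ) (_j : J) (p : ℕ) : ℝ := 1 / 2 * (1 / ((p : ℝ) - c))

lemma rho_X {p : ℕ} (hp : p.Prime) : rho X p = 1 := by
  unfold rho
  have : (Finset.range p).filter (fun a : ℕ => (p : ℤ) ∣ (X : ℤ[X]).eval (a : ℤ)) = {0} := by
    ext a
    rw [mem_filter, mem_range, mem_singleton, eval_X, Int.natCast_dvd_natCast]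
    constructor
    · rintro ⟨h1, h2⟩
      exact Nat.eq_zero_of_dvd_of_lt h2 h1
    · rintro rfl
      exact ⟨hp.pos, dvd_zero p⟩
  rw [this, card_singleton]

lemma gaw_X {p c : ℕ} (hp : p.Prime) : gaw X 1 c p = 1 / ((p : ℝ) - c) := by
  unfold gaw
  rw [rho_X hp]
  norm_num

lemma wh (hUP : S_UP2) (c : ℕ) : WHyp (J := J) (aH c) (aH c) (fun _ => 1 / 2) := by
  have hmain : ∀ z, 2 * c + 2 ≤ z → ∀ p : ℕ, p.Prime → z < p →
      (0 : ℝ) < (p : ℝ) - c ∧ 1 / ((p : ℝ) - c) ≤ 2 / p ∧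
        1 / ((p : ℝ) - c) ≤ 1 / p + 2 * c * (1 / (p : ℝ) ^ 2) := by
    intro z hz p hp hzp
    have h1 : (2 * c + 2 : ℝ) ≤ p := by exact_mod_cast (by omega : 2 * c + 2 ≤ p)
    have hc : (0 : ℝ) ≤ c := Nat.cast_nonneg c
    have hp0 : (0 : ℝ) < p := by linarith
    have hpc : (0 : ℝ) < (p : ℝ) - c := by linarith
    refine ⟨hpc, ?_, ?_⟩
    · rw [div_le_div_iff₀ hpc hp0]
      linarith
    · have e1 : 1 / (p : ℝ) + 2 * c * (1 / (p : ℝ) ^ 2) = (p + 2 * c) / (p : ℝ) ^ 2 := by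
        field_simp
      rw [e1, div_le_div_iff₀ hpc (by positivity)]
      nlinarith
  refine ⟨2, 2 * c + 2, ?_, ?_, ?_⟩
  · intro z hz p hp hzp j
    obtain ⟨h1, h2, _⟩ := hmain z hz p hp hzp
    have h3 : 0 ≤ 1 / ((p : ℝ) - c) := by positivity
    unfold aH
    refine ⟨by positivity, by positivity, ?_⟩
    push_cast
    linarith
  · intro z hz j
    obtain ⟨C, hC0, hC⟩ := sum_rho X irreducible_X (by rw [natDegree_X]; exact one_pos)
    obtain ⟨K, hK, hsq⟩ := Pool.Agent.W655.RK.sum_inv_sq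
    have hb : ∀ y : ℕ, 2 ≤ y → ∑ p ∈ PS z y, aH c j p ≤
        1 / 2 * Real.log (Real.log y) + (1 / 2 * C + c * K) := by
      intro y hy
      have h1 := hC z y (by omega) hy
      have h2 := hsq (PS z y)
      calc ∑ p ∈ PS z y, aH c j p ≤ ∑ p ∈ PS z y, (1 / 2 * ((rho X p : ℝ) / p) +
            c * (1 / (p : ℝ) ^ 2)) := by
            refine sum_le_sum fun p hp => ?_
            have hp' := mem_PS.1 hp
            obtain ⟨_, _, h3⟩ := hmain z hz p hp'.2 hp'.1.1
            unfold aH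
            rw [rho_X hp'.2]
            push_cast
            linarith
        _ = 1 / 2 * ∑ p ∈ PS z y, (rho X p : ℝ) / p + c * ∑ p ∈ PS z y, 1 / (p : ℝ) ^ 2 := by
            rw [sum_add_distrib, mul_sum, mul_sum]
        _ ≤ _ := by
            have hc : (0 : ℝ) ≤ c := Nat.cast_nonneg c
            have := mul_le_mul_of_nonneg_left h2 hc
            linarith
    refine ⟨1 / 2 * C + c * K, fun y hy => ⟨hb y hy, ?_⟩⟩
    refine (hb y hy).trans (le_of_eq ?_)
    norm_num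
  · intro j ε hε
    have hX1 : ¬ (X : ℤ[X]) ∣ 1 := fun h => irreducible_X.not_isUnit (isUnit_of_dvd_one h)
    obtain ⟨z0, hz0⟩ := hUP X 1 ε c irreducible_X (by rw [natDegree_X]; exact one_pos) hX1 hε
    refine ⟨z0, fun z hz => ?_⟩
    obtain ⟨C, hC⟩ := hz0 z hz
    have hC0 : 0 ≤ C ∨ C < 0 := le_or_gt 0 C
    refine ⟨|C|, fun y r t hy hr hrs hrp => ?_⟩
    have h1 := hC y r t hy hr hrs hrp
    have hl : 0 ≤ ε * Real.log r := mul_nonneg hε.le (Real.log_natCast_nonneg r)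
    have e1 : ∑ p ∈ PS z y, aH c j p * (Jr p r * x4 t p) =
        1 / 2 * ∑ p ∈ PS z y, bw X 1 1 c p * (Jr p r * x4 t p) := by
      rw [mul_sum]
      refine sum_congr rfl fun p hp => ?_
      have hp' := mem_PS.1 hp
      rw [bw_one, gaw_X hp'.2]
      unfold aH
      ring
    have h2 : |∑ p ∈ PS z y, aH c j p * (Jr p r * x4 t p)| ≤ ε * Real.log r + |C| := by
      rw [e1, abs_mul, abs_of_pos (by norm_num : (0 : ℝ) < 1 / 2)]
      have h3 := le_abs_self C
      have h4 := abs_nonneg (∑ p ∈ PS z y, bw X 1 1 c p * (Jr p r * x4 t p))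
      linarith
    exact ⟨h2, h2⟩

/-- the average over the signs -/
lemma avE_aH (c : ℕ) (Φ : Finset ℕ → ℝ) {s : J → ℕ} (hs : s ∈ Tup J z y) :
    avE (aH c) (aH c) Φ s =
      ((1 / 2) ^ (Q0 s).card * ∑ E ∈ (Q0 s).powerset, Φ E) * ∏ j, gw 1 c (s j) := by
  have hcard : (Q0 s).card = ∑ j, (s j).primeFactors.card := by
    unfold Q0
    rw [Pool.Agent.L7h19.RP.AT.primeFactors_prod_tup hs, card_biUnion]
    intro i _ j _ hij
    exact ((AT.mem_Tup'.1 hs).2 i j hij).disjoint_primeFactors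
  have h1 : ∀ E, WE (aH c) (aH c) s E = (1 / 2) ^ (Q0 s).card * ∏ j, gw 1 c (s j) := by
    intro E
    unfold WE
    rw [hcard, ← prod_pow_eq_pow_sum, ← prod_mul_distrib]
    refine prod_congr rfl fun j _ => ?_
    unfold gw aH
    rw [← prod_const, ← prod_mul_distrib]
    refine prod_congr rfl fun p _ => ?_
    split_ifs <;> rfl
  unfold avE
  rw [sum_congr rfl fun E _ => by rw [h1 E], ← sum_mul]
  ring

theorem s_MAJ (hBW : StBW) (hFr : StFree) (hT : S_EXT) (hF : S_EXF) (hLA : S_LAF) (hUP : S_UP2)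
    (hNL : S_NL0) (hEX : S_EX0) : S_MAJ := by
  intro J _ _ cls k c
  classical
  rcases Nat.eq_zero_or_pos k with hk | hk
  · subst hk
    obtain ⟨z0, hz0⟩ := maj0 (J := J) (fun _ => X) (fun _ => irreducible_X)
      (fun _ => by rw [natDegree_X]; exact one_pos) c
    refine ⟨z0, fun z hz => ?_⟩
    obtain ⟨C, hC⟩ := hz0 z hz
    refine ⟨C, fun y hy => le_trans (le_of_eq ?_) (hC y hy)⟩
    refine sum_congr rfl fun s hs => ?_
    have e1 : GA 0 cls s = 1 := by
      unfold GA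
      simp only [pow_zero, sum_const, card_powerset, nsmul_eq_mul, mul_one]
      push_cast
      rw [← mul_pow]
      norm_num
    rw [e1, one_mul]
    refine prod_congr rfl fun j _ => ?_
    unfold gw gm
    refine prod_congr rfl fun p hp => ?_
    rw [gaw_X (Nat.prime_of_mem_primeFactors hp)]
  · obtain ⟨z0, hz0⟩ := avgF hBW hFr hT hF (fun J _ _ cls k U S => Pool.Agent.L7h72.FT.combT cls k U S)
      hLA (wh (J := J) hUP c) (fun _ => by norm_num) cls k hk ∅ (fun c hc => absurd hc (notMem_empty c))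
    refine ⟨z0 + (c + 2), fun z hz => ?_⟩
    obtain ⟨C, hC⟩ := hz0 z (by omega)
    refine ⟨C, fun y hy => le_trans (sum_le_sum fun s hs => ?_) (hC y hy)⟩
    rw [avE_aH c _ hs]
    refine mul_le_mul_of_nonneg_right ?_ (prod_nonneg fun j _ => gw_nn (by omega) hs j)
    unfold GA
    refine mul_le_mul_of_nonneg_left (sum_le_sum fun E _ => ?_) (by positivity)
    refine pow_le_pow_left₀ (by positivity) ?_ k
    unfold gF
    have h1 : (NL (∏ j, s j) (LSs cls s E) : ℝ) ≤ (N0 (mc cls s) E : ℝ) := by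
      exact_mod_cast hNL J cls z y s E (by omega) hs
    exact div_le_div₀ (Nat.cast_nonneg _) h1 (by positivity)
      (pow_le_pow_right₀ (by norm_num) (hEX J cls z y s E hs))

end Pool.Agent.L7h72.AM2
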