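import Mathlib
import Pool.Agent.L7h72.AM.Avg
import Pool.Agent.L7h72.AM.Maj
import Pool.Agent.L7h72.AM.Fin
import Pool.Agent.L7h46.AM.Gro
import Pool.Agent.L7h46.AM.Nl
import Pool.Agent.L7h46.AM.Bad
import Pool.Agent.L7h65.AM.Imb
import Pool.Agent.L7h60.AM.All
import Pool.Agent.L7h60.AM.Ex0
import Pool.Agent.L7h56.FT.Ext
import Pool.Agent.L7h60.FT.Exf
import Pool.Agent.L7h65.FT.Laf
import Pool.Agent.L7h50.UP.Up2
import Pool.Agent.L7h80.RP.StBW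
import Pool.Agent.L7h23.RP.StFree
import Pool.Agent.L7h53.AM.Ht

/-!
# Project AM: assembly

Parts by helper19 (`avgF`), helper46 (`s_GRO`, `nl_le`, `s_BAD`), helper50 (`s_UP2`), helper53
(`s_HT`), helper56 (`s_EXT`), helper60 (`s_EXF`, `s_ALL`, `s_EX0`), helper65 (`s_LAF`, `s_IMB`),
helper72 (`combT`, `s_MAJ`, `s_AVG`).
-/

set_option autoImplicit false

namespace Pool.Agent.L7h72.AM2

open Finset Pool.Agent.W262.RK Pool.Agent.W307.RT Pool.Agent.L7h19.RH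

theorem maj : S_MAJ := s_MAJ Pool.Agent.L7h80.RP.stBW Pool.Agent.L7h23.RP.stFree
  Pool.Agent.L7h56.FT.s_EXT Pool.Agent.L7h60.FT.s_EXF Pool.Agent.L7h65.FT.s_LAF
  Pool.Agent.L7h50.UP.s_UP2
  (fun _ _ _ cls _ _ _ E _ hs => Pool.Agent.L7h46.AM.nl_le cls hs E) Pool.Agent.L7h60.AM.s_EX0

theorem bnd : BND := Pool.Agent.L7h60.AM.s_ALL
  (s_AVG maj Pool.Agent.L7h46.AM.s_GRO Pool.Agent.L7h65.AM.s_IMB)

/-- the moments -/
theorem momk : ∀ k : ℕ, ∃ C : ℝ, ∀ H : ℕ, ∑ c ∈ Cv 2 H,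
    ((2 : ℝ) ^ Module.finrank ℤ (Sh c.1 c.2).toAffine.Point / 2 ^ IB c) ^ k ≤ C * (Cv 2 H).card :=
  Pool.Agent.L7h53.AM.s_HT bnd

theorem bad : S_BAD := Pool.Agent.L7h46.AM.s_BAD

end Pool.Agent.L7h72.AM2
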